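import Pool.Agent.Run7.h713.DPMin
import Pool.Agent.Run7.h713.SepaPf
import Pool.Agent.Run7.h713.Dir

/-!
# A definable downward directed family in a distal dp-minimal structure without a definable type

The structure is the set of finite binary words with the relation `R(a, b, c, d)` saying that
`|a| = |b|`, `|c| = |d|` and the bitwise sum `a + b` is an initial segment of the bitwise sum
`c + d`. The family is `X_b = {(x, y) : |x| = |y| ≥ |b| and the first digits of x and y differ}`.

* dp-minimality: in one variable, each formula defines a Boolean combination of boundedly many
  members of the laminar family of the cells `{x : |u| ≤ |x|}` and
  `{x : |x| = |x₀|, x and x₀ agree below |u|}`.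
* distality: the cells can be chosen uniformly definable over the parameters of the formula. The
  orbits of the stabiliser of a tuple `b` are cells, a cell which is not contained in an orbit
  is defined by a sum of members of `b`, and the alternations of a definable set along such a
  branch are bounded. An indiscernible sequence which is indiscernible over `A` without its member
  number `c` is then handled with the laminar family.
* no definable type: a definable type which contains all `X_b` contains `x + y ∈ [t]` for a word
  `t` with first digit 1 which is longer than all parameters of the definition; but an automorphism
  which fixes all shorter words changes the last digit of `t`.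
-/

set_option autoImplicit false

namespace Pool.Agent.Results.MP_6a1f82_lc.NegativeAnswer

open FirstOrder FirstOrder.Language Run7.h713

/-- There are a distal dp-minimal structure `M` and a definable downward directed family of
nonempty subsets of `M ^ 2`, indexed by `M`, which is contained in no definable type. -/
theorem result : ∃ (L : FirstOrder.Language.{0, 0}) (M : Type) (_ : L.Structure M),
    IsDPMinimal (L.completeTheory M) ∧ IsDistal (L.completeTheory M) ∧
      ∃ X : Set (Fin 1 ⊕ Fin 2 → M),
        IsDirectedFamily L (Set.univ : Set (Fin 1 → M)) X ∧
          ∀ p : Set (Set (Fin 2 → M)), IsCompleteType L p → IsDefinableType L p →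
            ∃ b : Fin 1 → M, Fiber X b ∉ p := by
  refine ⟨Lw, Wd, inferInstance, dpmin, distal, famX, dir_famX, fun p hp hdef => ?_⟩
  obtain ⟨b, -, hb⟩ := no_deftype p hp hdef
  exact ⟨b, hb⟩

end Pool.Agent.Results.MP_6a1f82_lc.NegativeAnswer
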